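import Mathlib
import Pool.Agent.helper48.PR.SpecC

/-!
# pr:C5 — relations of the Cartan elements
-/

set_option autoImplicit false

namespace Pool.Agent.PR

open Matrix

section
variable {R : Type} [Ring R]

theorem C5_jac (a b c : R) : (a * b - b * a) * c - c * (a * b - b * a) =
    (a * (b * c - c * b) - (b * c - c * b) * a) - (b * (a * c - c * a) - (a * c - c * a) * b) := by
  noncomm_ring

theorem C5_swap {a b c : R} (h : a * b - b * a = c) : b * a - a * b = -c := by
  rw [← h]; abel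

theorem C5_der {H a b x y : R} (h1 : H * a - a * H = x) (h2 : H * b - b * H = y) :
    H * (a * b - b * a) - (a * b - b * a) * H = (x * b - b * x) + (a * y - y * a) := by
  rw [← h1, ← h2]
  noncomm_ring

end

variable {n : ℕ} {F : Type} [Field F] {M : Fin n → Fin n → Matrix (Fin n) (Fin n) F}

theorem C5_zero (hM : IsFam M) {i j l m : Fin n} (h1 : i ≠ j) (h2 : l ≠ m) (h3 : j ≠ l) (h4 : i ≠ m) :
    M i j * M l m - M l m * M i j = 0 := sub_eq_zero.mpr (hM.r2 i j l m h1 h2 h3 h4)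

theorem C5_a (hM : IsFam M) {i j l : Fin n} (h1 : i ≠ j) (h2 : j ≠ l) (h3 : i ≠ l) :
    hh M i j * M i l - M i l * hh M i j = M i l := by
  unfold hh
  rw [C5_jac, hM.r1 j i l h1.symm h3 h2, C5_zero hM h1 h3 h1.symm h3, hM.r1 i j l h1 h2 h3]
  simp

theorem C5_b (hM : IsFam M) {i j l : Fin n} (h1 : i ≠ j) (h2 : j ≠ l) (h3 : i ≠ l) :
    hh M i j * M j l - M j l * hh M i j = -M j l := by
  unfold hh
  rw [C5_jac, C5_zero hM h1.symm h2 h1 h2, hM.r1 i j l h1 h2 h3, hM.r1 j i l h1.symm h3 h2]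
  simp

theorem C5_c (hM : IsFam M) {i j l : Fin n} (h1 : i ≠ j) (h2 : j ≠ l) (h3 : i ≠ l) :
    hh M i j * M l i - M l i * hh M i j = -M l i := by
  unfold hh
  rw [C5_jac, C5_zero hM h1.symm h3.symm h3 h1.symm, C5_swap (hM.r1 l i j h3.symm h1 h2.symm)]
  have h := hM.r1 l j i h2.symm h1.symm h3.symm
  rw [← h]
  noncomm_ring

theorem C5_d (hM : IsFam M) {i j l : Fin n} (h1 : i ≠ j) (h2 : j ≠ l) (h3 : i ≠ l) :
    hh M i j * M l j - M l j * hh M i j = M l j := by
  unfold hh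
  rw [C5_jac, C5_zero hM h1 h2.symm h2 h1, C5_swap (hM.r1 l j i h2.symm h1.symm h3.symm)]
  have h := hM.r1 l i j h3.symm h1 h2.symm
  rw [← h]
  noncomm_ring

theorem C5_third (hn : 3 ≤ n) (i j : Fin n) : ∃ p : Fin n, p ≠ i ∧ p ≠ j := by
  by_contra hcon
  push Not at hcon
  have h1 : (Finset.univ : Finset (Fin n)) ⊆ {i, j} := by
    intro p _
    by_cases h : p = i
    · simp [h]
    · simp [hcon p h]
  have h2 := Finset.card_le_card h1
  have h3 : ({i, j} : Finset (Fin n)).card ≤ 2 := Finset.card_le_two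
  rw [Finset.card_univ, Fintype.card_fin] at h2
  omega

theorem C5_1 (hn : 3 ≤ n) (hM : IsFam M) {i j : Fin n} (h1 : i ≠ j) :
    hh M i j * M i j - M i j * hh M i j = 2 • M i j := by
  obtain ⟨p, hpi, hpj⟩ := C5_third hn i j
  have h := C5_der (C5_a hM h1 hpj.symm hpi.symm) (C5_d hM h1 hpj.symm hpi.symm)
  rw [hM.r1 i p j hpi.symm hpj h1] at h
  rw [h, two_smul]

theorem C5_3 (hM : IsFam M) {i j k l : Fin n} (h1 : i ≠ j) (h2 : k ≠ l) (h3 : k ≠ i) (h4 : k ≠ j)
    (h5 : l ≠ i) (h6 : l ≠ j) : hh M i j * M k l = M k l * hh M i j := by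
  rw [← sub_eq_zero]
  unfold hh
  rw [C5_jac, C5_zero hM h1.symm h2 h3.symm h6.symm, C5_zero hM h1 h2 h4.symm h5.symm]
  simp

theorem C5_6 (i j : Fin n) : hh M j i = - hh M i j := by
  unfold hh
  rw [neg_sub]

theorem C5_5 (hM : IsFam M) {i j l : Fin n} (h1 : i ≠ j) (h2 : j ≠ l) (h3 : i ≠ l) :
    hh M i j + hh M j l = hh M i l := by
  have h : hh M i l = (M i j * M j l - M j l * M i j) * M l i - M l i * (M i j * M j l - M j l * M i j) := by
    rw [hM.r1 i j l h1 h2 h3]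
    rfl
  rw [h, C5_jac, hM.r1 j l i h2 h3.symm h1.symm, C5_swap (hM.r1 l i j h3.symm h1 h2.symm)]
  unfold hh
  noncomm_ring

/-- the Cartan elements act by opposite scalars on opposite root vectors -/
theorem C5_scal (hn : 3 ≤ n) (hM : IsFam M) {i j k l : Fin n} (hij : i ≠ j) (hkl : k ≠ l) :
    ∃ c : ℤ, hh M i j * M k l - M k l * hh M i j = c • M k l ∧
      hh M i j * M l k - M l k * hh M i j = (-c) • M l k := by
  by_cases h1 : k = i
  · subst h1
    by_cases h2 : l = j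
    · subst h2
      refine ⟨2, ?_, ?_⟩
      · rw [C5_1 hn hM hij]; simp [two_smul]
      · have h := C5_1 hn hM hij.symm
        rw [C5_6 (M := M)] at h
        have h' : hh M k l * M l k - M l k * hh M k l = - (2 • M l k) := by
          rw [← h]; noncomm_ring
        rw [h']; simp [two_smul]
    · refine ⟨1, ?_, ?_⟩
      · rw [C5_a hM hij (Ne.symm h2) hkl]; simp
      · rw [C5_c hM hij (Ne.symm h2) hkl]; simp
  · by_cases h2 : k = j
    · subst h2
      by_cases h3 : l = i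
      · subst h3
        refine ⟨-2, ?_, ?_⟩
        · have h := C5_1 hn hM hij.symm
          rw [C5_6 (M := M)] at h
          have h' : hh M l k * M k l - M k l * hh M l k = - (2 • M k l) := by
            rw [← h]; noncomm_ring
          rw [h']; simp [two_smul]
        · rw [C5_1 hn hM hij]; simp [two_smul]
      · refine ⟨-1, ?_, ?_⟩
        · rw [C5_b hM hij hkl (Ne.symm h3)]; simp
        · rw [C5_d hM hij hkl (Ne.symm h3)]; simp
    · by_cases h3 : l = i
      · subst h3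
        refine ⟨-1, ?_, ?_⟩
        · rw [C5_c hM hij (Ne.symm h2) hkl.symm]; simp
        · rw [C5_a hM hij (Ne.symm h2) hkl.symm]; simp
      · by_cases h4 : l = j
        · subst h4
          refine ⟨1, ?_, ?_⟩
          · rw [C5_d hM hij hkl.symm (Ne.symm h1)]; simp
          · rw [C5_b hM hij hkl.symm (Ne.symm h1)]; simp
        · refine ⟨0, ?_, ?_⟩
          · rw [C5_3 hM hij hkl h1 h2 h3 h4]; simp
          · rw [C5_3 hM hij hkl.symm h3 h4 h1 h2]; simp

theorem C5_4 (hn : 3 ≤ n) (hM : IsFam M) {i j k l : Fin n} (hij : i ≠ j) (hkl : k ≠ l) :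
    hh M i j * hh M k l = hh M k l * hh M i j := by
  obtain ⟨c, h1, h2⟩ := C5_scal hn hM hij hkl
  rw [← sub_eq_zero]
  have h := C5_der h1 h2
  change hh M i j * hh M k l - hh M k l * hh M i j = _ at h
  rw [h]
  simp only [smul_mul_assoc, mul_smul_comm, neg_smul, neg_mul, mul_neg]
  abel

theorem C5 : C5_stmt := by
  intro n hn F _ M hM
  exact ⟨fun i j h => C5_1 hn hM h,
    fun i j l h1 h2 h3 => ⟨C5_a hM h1 h2 h3, C5_b hM h1 h2 h3, C5_c hM h1 h2 h3, C5_d hM h1 h2 h3⟩,
    fun i j k l h1 h2 h3 h4 h5 h6 => C5_3 hM h1 h2 h3 h4 h5 h6,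
    fun i j k l h1 h2 => C5_4 hn hM h1 h2, fun i j l h1 h2 h3 => C5_5 hM h1 h2 h3,
    fun i j => C5_6 i j⟩

end Pool.Agent.PR
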