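import Mathlib
import Pool.Agent.helper48.PR.SpecC

/-!
# pr:C6 — a weight vector of nonzero weight
-/

set_option autoImplicit false

namespace Pool.Agent.PR

open Matrix

theorem C6_common {F V ι : Type} [Field F] [IsAlgClosed F] [AddCommGroup V] [Module F V]
    [FiniteDimensional F V] [DecidableEq ι] (f : ι → Module.End F V)
    (hc : ∀ i j, f i * f j = f j * f i) (s : Finset ι) : ∀ (W : Submodule F V), W ≠ ⊥ →
      (∀ i, ∀ w ∈ W, f i w ∈ W) → ∃ v ∈ W, v ≠ 0 ∧ ∀ i ∈ s, ∃ c : F, f i v = c • v := by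
  induction s using Finset.induction_on with
  | empty =>
    intro W hW _
    obtain ⟨v, hv, hv0⟩ := W.exists_mem_ne_zero_of_ne_bot hW
    exact ⟨v, hv, hv0, fun i hi => absurd hi (Finset.notMem_empty i)⟩
  | insert a s _ ih =>
    intro W hW hinv
    have : Nontrivial W := by
      obtain ⟨v, hv, hv0⟩ := W.exists_mem_ne_zero_of_ne_bot hW
      exact ⟨⟨v, hv⟩, 0, fun h => hv0 (congrArg Subtype.val h)⟩
    obtain ⟨μ, hμ⟩ := Module.End.exists_eigenvalue ((f a).restrict (hinv a))
    obtain ⟨w, hw⟩ := hμ.exists_hasEigenvector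
    have hw1 : f a (w : V) = μ • (w : V) := by
      have := congrArg Subtype.val hw.apply_eq_smul
      simpa using this
    have hw0 : (w : V) ≠ 0 := fun h => hw.2 (Subtype.ext h)
    have hne : W ⊓ (f a).eigenspace μ ≠ ⊥ := by
      intro h
      apply hw0
      have hmem : (w : V) ∈ W ⊓ (f a).eigenspace μ :=
        ⟨w.2, Module.End.mem_eigenspace_iff.mpr hw1⟩
      rw [h] at hmem
      exact (Submodule.mem_bot F).mp hmem
    obtain ⟨v, hv, hv0, hvs⟩ := ih (W ⊓ (f a).eigenspace μ) hne (by
      intro i x hx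
      refine ⟨hinv i x hx.1, ?_⟩
      apply Module.End.mem_eigenspace_iff.mpr
      have h1 : f a x = μ • x := Module.End.mem_eigenspace_iff.mp hx.2
      have h2 : f a (f i x) = f i (f a x) := LinearMap.congr_fun (hc a i) x
      rw [h2, h1, map_smul])
    refine ⟨v, hv.1, hv0, ?_⟩
    intro i hi
    rcases Finset.mem_insert.mp hi with rfl | hi
    · exact ⟨μ, Module.End.mem_eigenspace_iff.mp hv.2⟩
    · exact hvs i hi

/-- a matrix over an algebraically closed field without nonzero eigenvalue is nilpotent -/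
theorem C6_nil {F : Type} [Field F] [IsAlgClosed F] {n : ℕ} (H : Matrix (Fin n) (Fin n) F)
    (h : ∀ (μ : F) (v : Fin n → F), μ ≠ 0 → H *ᵥ v = μ • v → v = 0) : IsNilpotent H := by
  set f : Module.End F (Fin n → F) := Matrix.toLin' H with hf
  have h1 : ∀ μ : F, μ ≠ 0 → f.maxGenEigenspace μ = ⊥ := by
    intro μ hμ
    by_contra hne
    have h2 : f.HasUnifEigenvalue μ ⊤ := hne
    have h3 : f.HasEigenvalue μ := h2.lt zero_lt_one
    obtain ⟨v, hv⟩ := h3.exists_hasEigenvector
    apply hv.2
    apply h μ v hμ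
    have := hv.apply_eq_smul
    rwa [hf, Matrix.toLin'_apply] at this
  have h2 : f.maxGenEigenspace 0 = ⊤ := by
    rw [eq_top_iff, ← Module.End.iSup_maxGenEigenspace_eq_top f]
    apply iSup_le
    intro μ
    by_cases hμ : μ = 0
    · rw [hμ]
    · rw [h1 μ hμ]; exact bot_le
  rw [Module.End.maxGenEigenspace_eq_genEigenspace_finrank] at h2
  have h3 : f ^ (Module.finrank F (Fin n → F)) = 0 := by
    apply LinearMap.ext
    intro v
    have hv : v ∈ f.genEigenspace 0 (Module.finrank F (Fin n → F)) := by rw [h2]; trivial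
    rw [Module.End.mem_genEigenspace_nat] at hv
    simpa using hv
  refine ⟨Module.finrank F (Fin n → F), ?_⟩
  apply Matrix.toLin'.injective
  rw [Matrix.toLin'_pow, map_zero]
  exact h3

theorem C6_mul {R : Type} [Ring R] {H A : R} (h : H * A - A * H = 2 • A) (k : ℕ) :
    H ^ k * A = A * (H + 2) ^ k := by
  induction k with
  | zero => simp
  | succ k ih =>
    have h1 : H * A = A * (H + 2) := by
      have : H * A = (H * A - A * H) + A * H := by abel
      rw [this, h, two_smul, mul_add, mul_two]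
      abel
    rw [pow_succ', mul_assoc, ih, ← mul_assoc, h1, mul_assoc, pow_succ']

theorem C6 (hC5 : C5_stmt) : C6_stmt := by
  intro n hn F _ _ _ M hM hne
  obtain ⟨p, q, hpq, hMpq⟩ := hne
  obtain ⟨h51, -, -, h54, h55, h56⟩ := hC5 n hn F M hM
  -- a nonzero eigenvalue
  have hev : ∃ (μ : F) (v : Fin n → F), μ ≠ 0 ∧ v ≠ 0 ∧ hh M p q *ᵥ v = μ • v := by
    by_contra hcon
    push Not at hcon
    have hnil : IsNilpotent (hh M p q) := C6_nil _ (fun μ v hμ hv => by
      by_contra hv0
      exact hcon μ v hμ hv0 hv)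
    apply hMpq
    obtain ⟨k, hk⟩ := hnil
    have h1 := C6_mul (h51 p q hpq) k
    rw [hk, zero_mul] at h1
    have h2u : IsUnit (2 : Matrix (Fin n) (Fin n) F) := by
      have h3 : (2 : Matrix (Fin n) (Fin n) F) = algebraMap F _ 2 := (map_ofNat _ 2).symm
      rw [h3]
      exact (IsUnit.mk0 (2 : F) two_ne_zero).map _
    have h2 : IsUnit (hh M p q + 2) := by
      rw [add_comm]
      exact IsNilpotent.isUnit_add_left_of_commute ⟨k, hk⟩ h2u (Commute.ofNat_right _ 2)
    have h3 : IsUnit ((hh M p q + 2) ^ k) := h2.pow k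
    exact (h3.mul_left_eq_zero).mp h1.symm
  obtain ⟨μ, v0, hμ, hv0, hv0e⟩ := hev
  have hzero : ∀ i, hh M i i = 0 := by intro i; unfold hh; abel
  have hcomm : ∀ i j k l, hh M i j * hh M k l = hh M k l * hh M i j := by
    intro i j k l
    by_cases h1 : i = j
    · subst h1; rw [hzero]; simp
    · by_cases h2 : k = l
      · subst h2; rw [hzero]; simp
      · exact h54 i j k l h1 h2
  obtain ⟨v, hvW, hv, hvs⟩ := C6_common (V := Fin n → F) (ι := Fin n × Fin n)
    (fun t => Matrix.toLin' (hh M t.1 t.2)) (by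
      intro s t
      apply LinearMap.ext
      intro x
      simp only [Module.End.mul_apply, Matrix.toLin'_apply, Matrix.mulVec_mulVec]
      rw [hcomm]) Finset.univ
    (Module.End.eigenspace (Matrix.toLin' (hh M p q)) μ) (by
      intro h
      apply hv0
      have hmem : v0 ∈ Module.End.eigenspace (Matrix.toLin' (hh M p q)) μ := by
        rw [Module.End.mem_eigenspace_iff, Matrix.toLin'_apply]
        exact hv0e
      rw [h] at hmem
      exact (Submodule.mem_bot F).mp hmem) (by
      intro t w hw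
      rw [Module.End.mem_eigenspace_iff, Matrix.toLin'_apply] at hw ⊢
      rw [Matrix.toLin'_apply, Matrix.mulVec_mulVec, hcomm, ← Matrix.mulVec_mulVec, hw,
        Matrix.mulVec_smul])
  have hvW' : hh M p q *ᵥ v = μ • v := by
    rw [Module.End.mem_eigenspace_iff, Matrix.toLin'_apply] at hvW
    exact hvW
  have hvs' : ∀ i j, ∃ c : F, hh M i j *ᵥ v = c • v := by
    intro i j
    obtain ⟨c, hc⟩ := hvs (i, j) (Finset.mem_univ _)
    exact ⟨c, by simpa [Matrix.toLin'_apply] using hc⟩
  choose h hh' using hvs'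
  have hinj : ∀ c d : F, c • v = d • v → c = d := by
    intro c d hcd
    by_contra hne
    have h1 : (c - d) • v = 0 := by rw [sub_smul, hcd, sub_self]
    rcases smul_eq_zero.mp h1 with h2 | h2
    · exact hne (sub_eq_zero.mp h2)
    · exact hv h2
  set i0 : Fin n := ⟨0, by omega⟩ with hi0
  have hkey : ∀ i j, i ≠ j → h i j = h i i0 - h j i0 := by
    intro i j hij
    apply hinj
    have h00 : h i0 i0 = 0 := by
      apply hinj
      rw [← hh', hzero]; simp
    by_cases h1 : i = i0
    · rw [h1, h00, zero_sub, neg_smul, ← hh' j i0, ← hh' i0 j, h56 j i0, Matrix.neg_mulVec]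
    · by_cases h2 : j = i0
      · rw [h2, h00, sub_zero]
      · rw [sub_smul, ← hh', ← hh', ← hh', ← h55 i j i0 hij h2 h1, Matrix.add_mulVec]
        abel
  refine ⟨v, fun i => h i i0, hv, ⟨p, q, ?_⟩, ?_⟩
  · intro heq
    apply hμ
    apply hinj
    rw [← hvW', hh', hkey p q hpq]
    simp only at heq
    rw [heq, sub_self]
  · intro i j hij
    show hh M i j *ᵥ v = (h i i0 - h j i0) • v
    rw [← hkey i j hij, hh']

end Pool.Agent.PR
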