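import Mathlib
import Pool.Agent.helper5.PR.SpecM

/-!
# pr:M-MB — multiplicativity in `b` of the Mennicke symbol of `SL(3, ℤ)`
-/

namespace Pool.Agent.PR

open Matrix

theorem MB_xe_coe {n : ℕ} {i j : Fin n} (hij : i ≠ j) (c : ℤ) :
    ((Pool.Agent.H48SL.xe i j c : SpecialLinearGroup (Fin n) ℤ) : Matrix (Fin n) (Fin n) ℤ)
      = 1 + Matrix.single i j c := by
  unfold Pool.Agent.H48SL.xe
  rw [Pool.Agent.H48SL.tv_coe (Pool.Agent.H48SL.single_dot hij c)]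
  congr 1
  ext a b
  rw [vecMulVec_apply, Matrix.single_apply, Pi.single_apply, Pi.single_apply]
  by_cases h1 : a = i
  · by_cases h2 : b = j
    · simp [h1, h2]
    · have h3 : ¬ (i = a ∧ j = b) := fun h => h2 h.2.symm
      simp [h2, h3]
  · have h3 : ¬ (i = a ∧ j = b) := fun h => h1 h.1.symm
    simp [h1, h3]

/-- elementary matrices with an entry divisible by `m` lie in `N` -/
theorem MB_mem {n : ℕ} {m : ℤ} {N : Subgroup (SpecialLinearGroup (Fin n) ℤ)} (hN : Elem m N)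
    (g : SpecialLinearGroup (Fin n) ℤ) (i j : Fin n) (hij : i ≠ j) (t : ℤ) (hm : m ∣ t)
    (hg : (g : Matrix (Fin n) (Fin n) ℤ) = 1 + Matrix.single i j t) : g ∈ N := by
  obtain ⟨k, rfl⟩ := hm
  have h0 : Pool.Agent.H48SL.xe i j m ∈ N := hN.2 _ i j hij (MB_xe_coe hij m)
  have h1 : g = (Pool.Agent.H48SL.xe i j m) ^ k := by
    unfold Pool.Agent.H48SL.xe
    rw [← Pool.Agent.H48SL.tv_zsmul_right (Pool.Agent.H48SL.single_dot hij m)]
    have h2 : k • (Pi.single j m : Fin n → ℤ) = Pi.single j (m * k) := by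
      ext b
      by_cases h : b = j
      · subst h; simp [mul_comm]
      · simp [h]
    rw [h2]
    apply Subtype.ext
    rw [hg]
    exact (MB_xe_coe hij (m * k)).symm
  rw [h1]
  exact Subgroup.zpow_mem _ h0 _

/-- `1 + t E_01` -/
def MB_e01 (t : ℤ) : SL3 := ⟨!![1, t, 0; 0, 1, 0; 0, 0, 1], by rw [Matrix.det_fin_three]; simp⟩
/-- `1 + t E_10` -/
def MB_e10 (t : ℤ) : SL3 := ⟨!![1, 0, 0; t, 1, 0; 0, 0, 1], by rw [Matrix.det_fin_three]; simp⟩
/-- `1 + t E_12` -/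
def MB_e12 (t : ℤ) : SL3 := ⟨!![1, 0, 0; 0, 1, t; 0, 0, 1], by rw [Matrix.det_fin_three]; simp⟩
/-- `1 + t E_21` -/
def MB_e21 (t : ℤ) : SL3 := ⟨!![1, 0, 0; 0, 1, 0; 0, t, 1], by rw [Matrix.det_fin_three]; simp⟩
/-- `1 + t E_20` -/
def MB_e20 (t : ℤ) : SL3 := ⟨!![1, 0, 0; 0, 1, 0; t, 0, 1], by rw [Matrix.det_fin_three]; simp⟩

variable {m : ℤ} {N : Subgroup SL3}

theorem MB_m01 (hN : Elem m N) {t : ℤ} (h : m ∣ t) : MB_e01 t ∈ N :=
  MB_mem hN _ 0 1 (by decide) t h (by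
    ext i j; fin_cases i <;> fin_cases j <;> simp [MB_e01])
theorem MB_m10 (hN : Elem m N) {t : ℤ} (h : m ∣ t) : MB_e10 t ∈ N :=
  MB_mem hN _ 1 0 (by decide) t h (by
    ext i j; fin_cases i <;> fin_cases j <;> simp [MB_e10])
theorem MB_m12 (hN : Elem m N) {t : ℤ} (h : m ∣ t) : MB_e12 t ∈ N :=
  MB_mem hN _ 1 2 (by decide) t h (by
    ext i j; fin_cases i <;> fin_cases j <;> simp [MB_e12])
theorem MB_m21 (hN : Elem m N) {t : ℤ} (h : m ∣ t) : MB_e21 t ∈ N :=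
  MB_mem hN _ 2 1 (by decide) t h (by
    ext i j; fin_cases i <;> fin_cases j <;> simp [MB_e21])
theorem MB_m20 (hN : Elem m N) {t : ℤ} (h : m ∣ t) : MB_e20 t ∈ N :=
  MB_mem hN _ 2 0 (by decide) t h (by
    ext i j; fin_cases i <;> fin_cases j <;> simp [MB_e20])

theorem MB_mk_eq_one [N.Normal] {x : SL3} (h : x ∈ N) : QuotientGroup.mk' N x = 1 :=
  (QuotientGroup.eq_one_iff x).mpr h

theorem MB_congr {a1 a2 a3 a4 a5 a6 a7 a8 a9 b1 b2 b3 b4 b5 b6 b7 b8 b9 : ℤ}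
    (h1 : a1 = b1) (h2 : a2 = b2) (h3 : a3 = b3) (h4 : a4 = b4) (h5 : a5 = b5) (h6 : a6 = b6)
    (h7 : a7 = b7) (h8 : a8 = b8) (h9 : a9 = b9) :
    !![a1, a2, a3; a4, a5, a6; a7, a8, a9] = !![b1, b2, b3; b4, b5, b6; b7, b8, b9] := by
  rw [h1, h2, h3, h4, h5, h6, h7, h8, h9]

theorem MB_mat (a b c d b' c' d' : ℤ) (hdet : a * d - b * c = 1) :
    !![1, 0, 0; 0, 1, 0; 0, -c', 1] *
      (!![a, b, 0; c, d, 0; 0, 0, 1] * !![1, 0, 0; 0, a, b'; 0, c', d'] *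
        !![1, -b, 0; 0, 1, 0; 0, 0, 1]) *
      (!![1, 0, 0; -c, 1, 0; 0, 0, 1] * !![1, 0, 0; 0, 1, -(d * b'); 0, 0, 1])
      = !![a, 0, b * b'; 0, 1, 0; - (c * c'), 0, d' - c' * d * b'] := by
  simp only [Matrix.mul_fin_three]
  exact MB_congr (by ring) (by ring) (by ring)
    (by linear_combination (-c) * hdet) (by linear_combination hdet) (by linear_combination (-d * b') * hdet)
    (by linear_combination (c * c') * hdet) (by linear_combination (-c') * hdet)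
    (by linear_combination (c' * d * b') * hdet)

theorem MB_core (a b c d b' c' d' : ℤ) (hdet : a * d - b * c = 1) (hdet' : a * d' - b' * c' = 1)
    (m : ℤ) (g g' k : SL2) (hg : g.1 = !![a, b; c, d]) (hg' : g'.1 = !![a, b'; c', d'])
    (hk : k.1 = !![a, b * b'; - (c * c'), d' - c' * d * b']) :
    MB_e21 (-c') * (cn12 g * cn23 g' * MB_e01 (-b)) * (MB_e10 (-c) * MB_e12 (-(d * b')))
      = cn13 k := by
  apply Subtype.ext
  simp only [Matrix.SpecialLinearGroup.coe_mul, MB_e21, MB_e01, MB_e10, MB_e12, cn12, cn23, cn13,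
    hg, hg', hk]
  exact MB_mat a b c d b' c' d' hdet

theorem M_MB (hCEN : M_CEN_stmt) (hWD : M_WD_stmt) : M_MB_stmt := by
  intro m hm N _ hN g g' h hg hg' hh h1 h2 h3
  have hdet := g.2
  rw [Matrix.det_fin_two] at hdet
  have hdet' := g'.2
  rw [Matrix.det_fin_two] at hdet'
  have eg : g.1 = !![g.1 0 0, g.1 0 1; g.1 1 0, g.1 1 1] := Matrix.eta_fin_two _
  have eg' : g'.1 = !![g.1 0 0, g'.1 0 1; g'.1 1 0, g'.1 1 1] := by
    rw [← h1]; exact Matrix.eta_fin_two _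
  rw [h1] at hdet'
  generalize ha : g.1 0 0 = a at *
  generalize hb : g.1 0 1 = b at *
  generalize hc : g.1 1 0 = c at *
  generalize hd : g.1 1 1 = d at *
  generalize hb' : g'.1 0 1 = b' at *
  generalize hc' : g'.1 1 0 = c' at *
  generalize hd' : g'.1 1 1 = d' at *
  have hga : (m : ℤ) ∣ a - 1 := ha ▸ hg.1
  have hgb : (m : ℤ) ∣ b := hb ▸ hg.2.1
  have hgc : (m : ℤ) ∣ c := hc ▸ hg.2.2.1
  have hgb' : (m : ℤ) ∣ b' := hb' ▸ hg'.2.1
  have hgc' : (m : ℤ) ∣ c' := hc' ▸ hg'.2.2.1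
  have hgd' : (m : ℤ) ∣ d' - 1 := hd' ▸ hg'.2.2.2
  obtain ⟨k, hk⟩ : ∃ k : SL2, k.1 = !![a, b * b'; - (c * c'), d' - c' * d * b'] := ⟨⟨_, by
    rw [Matrix.det_fin_two_of]
    linear_combination hdet' - b' * c' * hdet⟩, rfl⟩
  have hkG : G2 m k := by
    unfold G2
    rw [hk]
    refine ⟨hga, Dvd.dvd.mul_right hgb _, ?_, ?_⟩
    · show (m : ℤ) ∣ - (c * c')
      exact (Dvd.dvd.mul_right hgc _).neg_right
    · show (m : ℤ) ∣ d' - c' * d * b' - 1
      have : d' - c' * d * b' - 1 = (d' - 1) - (c' * d) * b' := by ring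
      rw [this]
      exact dvd_sub hgd' (Dvd.dvd.mul_left hgb' _)
  have hq := congrArg (QuotientGroup.mk' N) (MB_core a b c d b' c' d' hdet hdet' m g g' k eg eg' hk)
  simp only [map_mul] at hq
  rw [MB_mk_eq_one (MB_m21 hN hgc'.neg_right), MB_mk_eq_one (MB_m01 hN hgb.neg_right),
    MB_mk_eq_one (MB_m10 hN hgc.neg_right),
    MB_mk_eq_one (MB_m12 hN (Dvd.dvd.mul_left hgb' _).neg_right)] at hq
  simp only [one_mul, mul_one] at hq
  rw [(hCEN m hm N hN g' hg').2.2, (hCEN m hm N hN k hkG).2.1] at hq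
  rw [hq]
  apply hWD m hm N hN k h hkG hh
  left
  rw [hk]
  exact ⟨h2, h3⟩

end Pool.Agent.PR
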