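import Mathlib
import Pool.Agent.helper5.PR.SpecM
import Pool.Agent.helper76.PR.M_MB

/-!
# pr:M-ALL — the congruence subgroup theorem for `SL(n, ℤ)`, `n ≥ 3`, by induction on `n`
-/

namespace Pool.Agent.PR

open Matrix

/-- the matrix `diag(A, 1)` -/
def ALL_mat (k : ℕ) (A : Matrix (Fin k) (Fin k) ℤ) : Matrix (Fin (k + 1)) (Fin (k + 1)) ℤ :=
  Matrix.reindex finSumFinEquiv finSumFinEquiv (fromBlocks A 0 0 (1 : Matrix (Fin 1) (Fin 1) ℤ))

theorem ALL_mat_one (k : ℕ) : ALL_mat k 1 = 1 := by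
  unfold ALL_mat
  rw [fromBlocks_one, Matrix.reindex_apply, Matrix.submatrix_one_equiv]

theorem ALL_mat_mul (k : ℕ) (A B : Matrix (Fin k) (Fin k) ℤ) :
    ALL_mat k (A * B) = ALL_mat k A * ALL_mat k B := by
  unfold ALL_mat
  rw [Matrix.reindex_apply, Matrix.reindex_apply, Matrix.reindex_apply,
    Matrix.submatrix_mul_equiv, fromBlocks_multiply]
  simp

theorem ALL_mat_det (k : ℕ) (A : Matrix (Fin k) (Fin k) ℤ) : (ALL_mat k A).det = A.det := by
  unfold ALL_mat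
  rw [Matrix.det_reindex_self, Matrix.det_fromBlocks_zero₂₁]
  simp

theorem ALL_mat_castSucc (k : ℕ) (A : Matrix (Fin k) (Fin k) ℤ) (i j : Fin k) :
    ALL_mat k A i.castSucc j.castSucc = A i j := by
  unfold ALL_mat
  rw [Matrix.reindex_apply, Matrix.submatrix_apply]
  have h : ∀ i : Fin k, finSumFinEquiv.symm (i.castSucc : Fin (k + 1)) = (Sum.inl i : Fin k ⊕ Fin 1) := by
    intro i
    rw [Equiv.symm_apply_eq]
    rfl
  rw [h, h, fromBlocks_apply₁₁]

theorem ALL_symm_last (k : ℕ) :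
    finSumFinEquiv.symm (Fin.last k : Fin (k + 1)) = (Sum.inr 0 : Fin k ⊕ Fin 1) := by
  rw [Equiv.symm_apply_eq]
  rfl

theorem ALL_symm_cast (k : ℕ) (i : Fin k) :
    finSumFinEquiv.symm (i.castSucc : Fin (k + 1)) = (Sum.inl i : Fin k ⊕ Fin 1) := by
  rw [Equiv.symm_apply_eq]
  rfl

theorem ALL_mat_last_left (k : ℕ) (A : Matrix (Fin k) (Fin k) ℤ) (j : Fin k) :
    ALL_mat k A (Fin.last k) j.castSucc = 0 := by
  unfold ALL_mat
  rw [Matrix.reindex_apply, Matrix.submatrix_apply, ALL_symm_last, ALL_symm_cast,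
    fromBlocks_apply₂₁]
  rfl

theorem ALL_mat_last_right (k : ℕ) (A : Matrix (Fin k) (Fin k) ℤ) (j : Fin k) :
    ALL_mat k A j.castSucc (Fin.last k) = 0 := by
  unfold ALL_mat
  rw [Matrix.reindex_apply, Matrix.submatrix_apply, ALL_symm_last, ALL_symm_cast,
    fromBlocks_apply₁₂]
  rfl

theorem ALL_mat_last_last (k : ℕ) (A : Matrix (Fin k) (Fin k) ℤ) :
    ALL_mat k A (Fin.last k) (Fin.last k) = 1 := by
  unfold ALL_mat
  rw [Matrix.reindex_apply, Matrix.submatrix_apply, ALL_symm_last, fromBlocks_apply₂₂]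
  simp

/-- a matrix is of the form `diag(A, 1)` -/
theorem ALL_eq_mat (k : ℕ) (M : Matrix (Fin (k + 1)) (Fin (k + 1)) ℤ)
    (h1 : ∀ j : Fin k, M (Fin.last k) j.castSucc = 0) (h2 : ∀ i : Fin k, M i.castSucc (Fin.last k) = 0)
    (h3 : M (Fin.last k) (Fin.last k) = 1) :
    M = ALL_mat k (Matrix.of fun i j => M i.castSucc j.castSucc) := by
  ext i j
  induction i using Fin.lastCases with
  | last =>
    induction j using Fin.lastCases with
    | last => rw [ALL_mat_last_last, h3]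
    | cast j => rw [ALL_mat_last_left, h1]
  | cast i =>
    induction j using Fin.lastCases with
    | last => rw [ALL_mat_last_right, h2]
    | cast j => rw [ALL_mat_castSucc]; rfl

/-- the corner embedding -/
def ALL_emb (k : ℕ) : SpecialLinearGroup (Fin k) ℤ →* SpecialLinearGroup (Fin (k + 1)) ℤ where
  toFun A := ⟨ALL_mat k A.1, by rw [ALL_mat_det]; exact A.2⟩
  map_one' := Subtype.ext (ALL_mat_one k)
  map_mul' A B := Subtype.ext (ALL_mat_mul k A.1 B.1)

theorem ALL_emb_coe (k : ℕ) (A : SpecialLinearGroup (Fin k) ℤ) :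
    ((ALL_emb k A : SpecialLinearGroup (Fin (k + 1)) ℤ) : Matrix _ _ ℤ) = ALL_mat k A.1 := rfl

theorem ALL_elem (k : ℕ) (m : ℤ) (N : Subgroup (SpecialLinearGroup (Fin (k + 1)) ℤ)) (hN : Elem m N) :
    Elem m (N.comap (ALL_emb k)) := by
  have := hN.1
  refine ⟨inferInstance, ?_⟩
  intro g i j hij hg
  rw [Subgroup.mem_comap]
  apply hN.2 _ i.castSucc j.castSucc (fun h => hij (Fin.castSucc_injective k h))
  rw [ALL_emb_coe]
  show ALL_mat k (g : Matrix (Fin k) (Fin k) ℤ) = _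
  rw [hg]
  symm
  rw [ALL_eq_mat k (1 + Matrix.single i.castSucc j.castSucc m)]
  · congr 1
    ext a b
    simp only [Matrix.of_apply, Matrix.add_apply, Matrix.one_apply, Matrix.single_apply,
      Fin.castSucc_inj]
  · intro b
    simp [Fin.castSucc_ne_last, (Fin.castSucc_ne_last _).symm]
  · intro b
    simp [Fin.castSucc_ne_last]
  · simp [Fin.castSucc_ne_last]

theorem ALL_step (hNQ : M_NQ_stmt) (k : ℕ) (hk : 2 ≤ k) (m : ℕ) (hm : 1 ≤ m)
    (N : Subgroup (SpecialLinearGroup (Fin (k + 1)) ℤ)) (hN : Elem (m : ℤ) N)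
    (h : ∀ A : SpecialLinearGroup (Fin k) ℤ, A ∈ Pool.Agent.H48SL.Cong (Fin k) m → ALL_emb k A ∈ N) :
    Pool.Agent.H48SL.Cong (Fin (k + 1)) m ≤ N := by
  intro γ hγ
  obtain ⟨a, ha, b, hb, h1, h2⟩ := Pool.Agent.H48SL.stab_reduce m (by omega) (Fin.last k)
    (by rw [Fintype.card_fin]; omega) γ hγ
  have haN := hNQ (k + 1) (by omega) m N hN ha
  have hbN := hNQ (k + 1) (by omega) m N hN hb
  have hδC : a * γ * b ∈ Pool.Agent.H48SL.Cong (Fin (k + 1)) m :=
    Subgroup.mul_mem _ (Subgroup.mul_mem _ (Pool.Agent.H48SL.NQ_le_Cong m ha) hγ)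
      (Pool.Agent.H48SL.NQ_le_Cong m hb)
  have hγeq : γ = a⁻¹ * (a * γ * b) * b⁻¹ := by group
  rw [hγeq]
  refine Subgroup.mul_mem _ (Subgroup.mul_mem _ (Subgroup.inv_mem _ haN) ?_) (Subgroup.inv_mem _ hbN)
  generalize a * γ * b = δ at *
  have h1' : ∀ i, δ.1 i (Fin.last k) = (Pi.single (Fin.last k) 1 : Fin (k + 1) → ℤ) i := by
    intro i
    rw [← congrFun h1 i, mulVec_single_one]
    rfl
  have h2' : ∀ i, δ.1 (Fin.last k) i = (Pi.single (Fin.last k) 1 : Fin (k + 1) → ℤ) i := by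
    intro i
    rw [← congrFun h2 i, single_one_vecMul]
    rfl
  have h3 : δ.1 = ALL_mat k (Matrix.of (fun (i j : Fin k) => δ.1 i.castSucc j.castSucc)) := by
    apply ALL_eq_mat
    · intro j
      rw [h2', Pi.single_eq_of_ne (Fin.castSucc_ne_last j)]
    · intro j
      rw [h1', Pi.single_eq_of_ne (Fin.castSucc_ne_last j)]
    · rw [h1', Pi.single_eq_same]
  obtain ⟨A, hA⟩ : ∃ A : SpecialLinearGroup (Fin k) ℤ,
      A.1 = Matrix.of (fun (i j : Fin k) => δ.1 i.castSucc j.castSucc) := by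
    refine ⟨⟨Matrix.of (fun (i j : Fin k) => δ.1 i.castSucc j.castSucc), ?_⟩, rfl⟩
    rw [← ALL_mat_det, ← h3]
    exact δ.2
  have h4 : ALL_emb k A = δ := by
    apply Subtype.ext
    rw [h3, ← hA]
    rfl
  rw [← h4]
  apply h
  rw [Pool.Agent.H48SL.mem_Cong]
  obtain ⟨B, hB⟩ := Pool.Agent.H48SL.mem_Cong.mp hδC
  refine ⟨Matrix.of fun i j => B i.castSucc j.castSucc, ?_⟩
  rw [hA]
  ext i j
  simp only [Matrix.of_apply, Matrix.add_apply, Matrix.smul_apply]
  rw [hB]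
  simp only [Matrix.add_apply, Matrix.smul_apply, Matrix.one_apply, Fin.castSucc_inj]

theorem ALL_two (A : SL2) : ALL_emb 2 A = cn12 A := by
  apply Subtype.ext
  rw [ALL_emb_coe]
  symm
  have h := ALL_eq_mat 2 (cn12 A).1 (by intro j; fin_cases j <;> rfl) (by intro j; fin_cases j <;> rfl) rfl
  rw [h]
  congr 1
  ext i j
  fin_cases i <;> fin_cases j <;> rfl

theorem M_ALL (hNQ : M_NQ_stmt) (hCOR : M_COR_stmt) : M_ALL_stmt := by
  intro n hn
  induction n, hn using Nat.le_induction with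
  | base =>
    intro m hm N hN
    apply ALL_step hNQ 2 le_rfl m hm N hN
    intro A hA
    have h1 : cn12 A ∈ N := by
      apply hCOR m hm N hN
      obtain ⟨B, hB⟩ := Pool.Agent.H48SL.mem_Cong.mp hA
      unfold G2
      have hB' : A.1 = 1 + (m : ℤ) • B := hB
      rw [hB']
      simp only [Matrix.add_apply, Matrix.smul_apply, smul_eq_mul]
      refine ⟨⟨B 0 0, ?_⟩, ⟨B 0 1, ?_⟩, ⟨B 1 0, ?_⟩, ⟨B 1 1, ?_⟩⟩
      · simp
      · simp
      · simp
      · simp
    exact (ALL_two A).symm ▸ h1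
  | succ n hn ih =>
    intro m hm N hN
    apply ALL_step hNQ n (by omega) m hm N hN
    intro A hA
    exact ih m hm (N.comap (ALL_emb n)) (ALL_elem n m N hN) hA

end Pool.Agent.PR
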