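import Mathlib
import Pool.Agent.helper5.PR.SpecM
import Pool.Agent.helper76.PR.M_MB

/-!
# pr:M-MA — multiplicativity in `a` of the Mennicke symbol of `SL(3, ℤ)`
-/

namespace Pool.Agent.PR

open Matrix

theorem MA_mat1 (a₁ b c₁ d₁ a₂ c₂ d₂ : ℤ) (hdet : a₁ * d₁ - b * c₁ = 1) :
    !![1, 0, 0; 0, 1, a₁; 0, 0, 1] *
      (!![a₁, b, 0; c₁, d₁, 0; 0, 0, 1] * !![a₂, 0, b; 0, 1, 0; c₂, 0, d₂]) *
      !![1, 0, 0; 0, 1, -a₁; 0, 0, 1]
      = !![a₁ * a₂, b, 0; c₁ * a₂ + a₁ * c₂, d₁, a₁ * d₂ - 1; c₂, 0, d₂] := by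
  simp only [Matrix.mul_fin_three]
  exact MB_congr (by ring) (by ring) (by ring) (by ring) (by ring)
    (by linear_combination (-1) * hdet) (by ring) (by ring) (by ring)

theorem MA_mat2 (a₁ b c₁ d₁ a₂ c₂ d₂ c d : ℤ) (hdet : a₁ * d₁ - b * c₁ = 1)
    (hh : (a₁ * a₂) * d - b * c = 1) :
    !![1, 0, 0; (c₁ * a₂ + a₁ * c₂) * d - d₁ * c, 1, 0; 0, 0, 1] *
    !![1, 0, 0; 0, 1, 0; c₂ * d, 0, 1] *
    (!![1, 0, 0; 0, a₂ - a₁ * b * c₂, a₁ * d₂ - 1; 0, - (b * c₂), d₂] *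
    !![a₁ * a₂, b, 0; c, d, 0; 0, 0, 1]) =
    !![a₁ * a₂, b, 0; c₁ * a₂ + a₁ * c₂, d₁, a₁ * d₂ - 1; c₂, 0, d₂] := by
  simp only [Matrix.mul_fin_three]
  refine MB_congr ?_ ?_ ?_ ?_ ?_ ?_ ?_ ?_ ?_
  · ring
  · ring
  · ring
  · linear_combination (c₁ * a₂ + a₁ * c₂) * hh - (a₂ * c) * hdet
  · linear_combination d₁ * hh - (a₂ * d) * hdet
  · ring
  · linear_combination c₂ * hh
  · ring
  · ring

/-- the class of a matrix with first row `(a₂, a₁ a₂ - 1)` is trivial -/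
theorem MA_triv (hWD : M_WD_stmt) (m : ℕ) (hm : 1 ≤ m) (N : Subgroup SL3) [N.Normal]
    (hN : Elem (m : ℤ) N) (g : SL2) (hg : G2 m g) (a₁ : ℤ) (h1 : (m : ℤ) ∣ a₁ - 1)
    (h01 : g.1 0 1 = a₁ * g.1 0 0 - 1) : QuotientGroup.mk' N (cn12 g) = 1 := by
  have hdet := g.2
  rw [Matrix.det_fin_two] at hdet
  obtain ⟨ga, gb, gc, gd⟩ := hg
  rw [h01] at hdet gb
  -- first step
  obtain ⟨t, ht⟩ := h1
  obtain ⟨B, hB⟩ : ∃ B : SL2, B.1 = !![g.1 0 0, g.1 0 0 - 1; g.1 1 0, g.1 1 1 - (m * t) * g.1 1 0] :=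
    ⟨⟨_, by
      rw [Matrix.det_fin_two_of]
      rw [← ht]
      linear_combination hdet⟩, rfl⟩
  have hB00 : B.1 0 0 = g.1 0 0 := by rw [hB]; rfl
  have hB01 : B.1 0 1 = g.1 0 0 - 1 := by rw [hB]; rfl
  have hB10 : B.1 1 0 = g.1 1 0 := by rw [hB]; rfl
  have hB11 : B.1 1 1 = g.1 1 1 - (m * t) * g.1 1 0 := by rw [hB]; rfl
  have hBG : G2 m B := by
    unfold G2
    rw [hB00, hB01, hB10, hB11]
    refine ⟨ga, ga, gc, ?_⟩
    have : g.1 1 1 - (m * t) * g.1 1 0 - 1 = (g.1 1 1 - 1) - (m * t) * g.1 1 0 := by ring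
    rw [this]
    exact dvd_sub gd (Dvd.dvd.mul_left gc _)
  have e1 : QuotientGroup.mk' N (cn12 B) = QuotientGroup.mk' N (cn12 g) := by
    apply hWD m hm N hN g B ⟨ga, by rw [h01]; exact gb, gc, gd⟩ hBG
    right; left
    refine ⟨-t, hB00, ?_⟩
    rw [hB01, h01]
    have : (m : ℤ) * t = a₁ - 1 := ht.symm
    linear_combination (g.1 0 0) * this
  -- second step
  have hdetB := B.2
  rw [Matrix.det_fin_two, hB00, hB01] at hdetB
  obtain ⟨C, hC⟩ : ∃ C : SL2, C.1 = !![1, g.1 0 0 - 1; B.1 1 0 - B.1 1 1 + 1, B.1 1 1 + (g.1 0 0 - 1)] :=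
    ⟨⟨_, by
      rw [Matrix.det_fin_two_of]
      linear_combination hdetB⟩, rfl⟩
  have hC00 : C.1 0 0 = 1 := by rw [hC]; rfl
  have hC01 : C.1 0 1 = g.1 0 0 - 1 := by rw [hC]; rfl
  have hC10 : C.1 1 0 = B.1 1 0 - B.1 1 1 + 1 := by rw [hC]; rfl
  have hC11 : C.1 1 1 = B.1 1 1 + (g.1 0 0 - 1) := by rw [hC]; rfl
  have hCG : G2 m C := by
    unfold G2
    rw [hC00, hC01, hC10, hC11]
    refine ⟨by simp, ga, ?_, ?_⟩
    · have : B.1 1 0 - B.1 1 1 + 1 = B.1 1 0 - (B.1 1 1 - 1) := by ring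
      rw [this]
      exact dvd_sub hBG.2.2.1 hBG.2.2.2
    · have : B.1 1 1 + (g.1 0 0 - 1) - 1 = (B.1 1 1 - 1) + (g.1 0 0 - 1) := by ring
      rw [this]
      exact dvd_add hBG.2.2.2 ga
  have e2 : QuotientGroup.mk' N (cn12 C) = QuotientGroup.mk' N (cn12 B) := by
    apply hWD m hm N hN B C hBG hCG
    right; right; left
    refine ⟨-1, ?_, ?_⟩
    · rw [hC00, hB00, hB01]; ring
    · rw [hC01, hB01]
  -- third step
  obtain ⟨D, hD⟩ : ∃ D : SL2, D.1 = !![1, g.1 0 0 - 1; 0, 1] :=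
    ⟨⟨_, by rw [Matrix.det_fin_two_of]; ring⟩, rfl⟩
  have hDG : G2 m D := by
    unfold G2
    rw [hD]
    refine ⟨?_, ga, ?_, ?_⟩
    · show (m : ℤ) ∣ 1 - 1
      simp
    · show (m : ℤ) ∣ 0
      simp
    · show (m : ℤ) ∣ 1 - 1
      simp
  have e3 : QuotientGroup.mk' N (cn12 C) = QuotientGroup.mk' N (cn12 D) := by
    apply hWD m hm N hN D C hDG hCG
    left
    rw [hC00, hC01, hD]
    exact ⟨rfl, rfl⟩
  have e4 : cn12 D = MB_e01 (g.1 0 0 - 1) := by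
    apply Subtype.ext
    simp only [cn12, MB_e01, hD]
    rfl
  rw [← e1, ← e2, e3, e4]
  exact MB_mk_eq_one (MB_m01 hN ga)

theorem M_MA (hCEN : M_CEN_stmt) (hWD : M_WD_stmt) : M_MA_stmt := by
  intro m hm N _ hN g g' h hg hg' hh h1 h2 h3
  have hdet := g.2
  rw [Matrix.det_fin_two] at hdet
  have hdet' := g'.2
  rw [Matrix.det_fin_two] at hdet'
  have hdeth := h.2
  rw [Matrix.det_fin_two] at hdeth
  have eg : g.1 = !![g.1 0 0, g.1 0 1; g.1 1 0, g.1 1 1] := Matrix.eta_fin_two _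
  have eg' : g'.1 = !![g'.1 0 0, g.1 0 1; g'.1 1 0, g'.1 1 1] := by
    rw [← h1]; exact Matrix.eta_fin_two _
  have eh : h.1 = !![g.1 0 0 * g'.1 0 0, g.1 0 1; h.1 1 0, h.1 1 1] := by
    rw [← h2, ← h3]; exact Matrix.eta_fin_two _
  rw [h1] at hdet'
  rw [h2, h3] at hdeth
  have ga := hg.1
  have gb := hg.2.1
  have gc := hg.2.2.1
  have gd := hg.2.2.2
  have ga' := hg'.1
  have gc' := hg'.2.2.1
  have gd' := hg'.2.2.2
  have gch := hh.2.2.1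
  generalize ha : g.1 0 0 = a₁ at *
  generalize hb : g.1 0 1 = b at *
  generalize hc : g.1 1 0 = c₁ at *
  generalize hd : g.1 1 1 = d₁ at *
  generalize ha' : g'.1 0 0 = a₂ at *
  generalize hc' : g'.1 1 0 = c₂ at *
  generalize hd' : g'.1 1 1 = d₂ at *
  generalize hch : h.1 1 0 = c at *
  generalize hdh : h.1 1 1 = d at *
  obtain ⟨A, hA⟩ : ∃ A : SL2, A.1 = !![a₂ - a₁ * b * c₂, a₁ * d₂ - 1; - (b * c₂), d₂] := ⟨⟨_, by
    rw [Matrix.det_fin_two_of]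
    linear_combination hdet'⟩, rfl⟩
  have hAG : G2 m A := by
    unfold G2
    rw [hA]
    refine ⟨?_, ?_, ?_, gd'⟩
    · show (m : ℤ) ∣ a₂ - a₁ * b * c₂ - 1
      have : a₂ - a₁ * b * c₂ - 1 = (a₂ - 1) - a₁ * b * c₂ := by ring
      rw [this]
      exact dvd_sub ga' (Dvd.dvd.mul_left gc' _)
    · show (m : ℤ) ∣ a₁ * d₂ - 1
      have : a₁ * d₂ - 1 = a₁ * (d₂ - 1) + (a₁ - 1) := by ring
      rw [this]
      exact dvd_add (Dvd.dvd.mul_left gd' _) ga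
    · show (m : ℤ) ∣ - (b * c₂)
      exact (Dvd.dvd.mul_left gc' _).neg_right
  obtain ⟨A', hA'⟩ : ∃ A' : SL2, A'.1 = !![a₂, a₁ * a₂ - 1; - (b * c₂), d₂ - a₁ * b * c₂] := ⟨⟨_, by
    rw [Matrix.det_fin_two_of]
    linear_combination hdet'⟩, rfl⟩
  have hA'G : G2 m A' := by
    unfold G2
    rw [hA']
    refine ⟨ga', ?_, ?_, ?_⟩
    · show (m : ℤ) ∣ a₁ * a₂ - 1
      have : a₁ * a₂ - 1 = a₁ * (a₂ - 1) + (a₁ - 1) := by ring
      rw [this]
      exact dvd_add (Dvd.dvd.mul_left ga' _) ga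
    · show (m : ℤ) ∣ - (b * c₂)
      exact (Dvd.dvd.mul_left gc' _).neg_right
    · show (m : ℤ) ∣ d₂ - a₁ * b * c₂ - 1
      have : d₂ - a₁ * b * c₂ - 1 = (d₂ - 1) - a₁ * b * c₂ := by ring
      rw [this]
      exact dvd_sub gd' (Dvd.dvd.mul_left gc' _)
  set π := QuotientGroup.mk' N with hπ
  -- the class of `A'` is trivial, and equals that of `A`
  have e1 : π (cn12 A') = 1 := by
    apply MA_triv hWD m hm N hN A' hA'G a₁ ga
    rw [hA']; rfl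
  have hcen := fun x hx => Subgroup.mem_center_iff.mp (hCEN m hm N hN x hx).1
  have e2 : π (cn12 A) = 1 := by
    have k1 : MB_e01 (-a₁) * cn12 A = cn12 A' * MB_e01 (-a₁) := by
      apply Subtype.ext
      simp only [Matrix.SpecialLinearGroup.coe_mul, MB_e01, cn12, hA, hA']
      simp only [Matrix.of_apply, Matrix.cons_val', Matrix.cons_val_zero, Matrix.cons_val_one,
        Matrix.cons_val_fin_one]
      rw [Matrix.mul_fin_three, Matrix.mul_fin_three]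
      exact MB_congr (by ring) (by ring) (by ring) (by ring) (by ring) (by ring) (by ring)
        (by ring) (by ring)
    have k2 := congrArg π k1
    rw [map_mul, map_mul, e1, one_mul, hcen A hAG] at k2
    exact mul_eq_right.mp k2
  have e3 : π (cn23 A) = 1 := by rw [(hCEN m hm N hN A hAG).2.2]; exact e2
  -- the two matrix identities
  have k1 : MB_e12 a₁ * (cn12 g * cn13 g') * MB_e12 (-a₁) =
      MB_e10 ((c₁ * a₂ + a₁ * c₂) * d - d₁ * c) * MB_e20 (c₂ * d) * (cn23 A * cn12 h) := by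
    apply Subtype.ext
    simp only [Matrix.SpecialLinearGroup.coe_mul, MB_e12, MB_e10, MB_e20, cn12, cn13, cn23, hA, eg,
      eg', eh]
    exact (MA_mat1 a₁ b c₁ d₁ a₂ c₂ d₂ hdet).trans (MA_mat2 a₁ b c₁ d₁ a₂ c₂ d₂ c d hdet hdeth).symm
  have k2 := congrArg π k1
  simp only [map_mul] at k2
  rw [MB_mk_eq_one (x := MB_e10 ((c₁ * a₂ + a₁ * c₂) * d - d₁ * c)) (MB_m10 hN (dvd_sub
      (Dvd.dvd.mul_right (dvd_add (Dvd.dvd.mul_right gc _) (Dvd.dvd.mul_left gc' _)) _)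
      (Dvd.dvd.mul_left gch _))),
    MB_mk_eq_one (x := MB_e20 (c₂ * d)) (MB_m20 hN (Dvd.dvd.mul_right gc' _)), e3,
    (hCEN m hm N hN g' hg').2.1] at k2
  simp only [one_mul] at k2
  rw [← k2]
  have k3 : π (MB_e12 a₁) * π (MB_e12 (-a₁)) = 1 := by
    rw [← map_mul]
    have : MB_e12 a₁ * MB_e12 (-a₁) = 1 := by
      apply Subtype.ext
      simp only [Matrix.SpecialLinearGroup.coe_mul, MB_e12, Matrix.SpecialLinearGroup.coe_one]
      rw [Matrix.mul_fin_three, Matrix.one_fin_three]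
      exact MB_congr (by ring) (by ring) (by ring) (by ring) (by ring) (by ring) (by ring)
        (by ring) (by ring)
    rw [this, map_one]
  rw [← mul_assoc (π (MB_e12 a₁)), hcen g hg (π (MB_e12 a₁)), mul_assoc, mul_assoc, ← mul_assoc (π (MB_e12 a₁)),
    hcen g' hg' (π (MB_e12 a₁)), mul_assoc, k3, mul_one]

end Pool.Agent.PR
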